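import Pool.Agent.W132.Cay.Defs

/-! Translation invariant complexes over `F_2^n`; local spectral expanders in which no link has an
isolated vertex. -/

set_option autoImplicit false

namespace Pool.Agent.W132.Cay

/-- The set of triangles is invariant under the translations of `F_2^n`. -/
def TriInvariant {n : ℕ} (X : Complex2 (Fin n → ZMod 2)) : Prop :=
  ∀ t ∈ X.tri, ∀ v : Fin n → ZMod 2, t.image (fun x => v + x) ∈ X.tri

open Classical in
/-- In every link every vertex has a neighbour (equivalently, every edge of the complex lies in a
triangle). So the random walk matrix of every link is defined: all denominators in `walk` are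
nonzero. -/
def Complex2.NoIsolated {V : Type} (X : Complex2 V) : Prop :=
  ∀ (u : V) (v : {v : V // X.graph.Adj u v}), ∃ w, (X.link u).Adj v w

/-- A `lam`-local spectral expander: the graph of the complex is connected, in every link every
vertex has a neighbour, and the second largest eigenvalue, in absolute value, of the random walk
matrix of every link is at most `lam`. -/
def Complex2.IsLocalSpectralExpander {V : Type} [Fintype V] (X : Complex2 V) (lam : ℝ) : Prop :=
  X.IsLocalExpander lam ∧ X.NoIsolated

end Pool.Agent.W132.Cay
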