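import Pool.Agent.W12.CayMain
import Pool.Agent.W132.Cay.TriInv

/-!
# Codes to Cayley complexes, with translation invariant triangles

A variant of `Pool.Agent.W12.Cay.code_to_complex` (helper12) which also records that the set of
triangles is translation invariant.
-/

set_option autoImplicit false
set_option linter.all false

namespace Pool.Agent.W132.Cay

open Pool.Agent.W12.Cay Finset

section Complex
variable {P : Type} [Fintype P] {n : ℕ} (p : P → (Fin n → ZMod 2)) (A : SimpleGraph P)
variable (hinj : Function.Injective p) (h0 : ∀ a, p a ≠ 0)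
  (hK : ∀ a a', A.Adj a a' → ∃ a'', p a + p a' = p a'' ∧ A.Adj a a'')

include hinj h0 hK in
theorem exists_complex' (hgen : AddSubgroup.closure (Set.range p) = ⊤) (lam : ℝ)
    (hA : LamLe A lam) (hN : ∀ a, ∃ b, A.Adj a b) :
    ∃ (Y : Complex2 (Fin n → ZMod 2)) (S : Finset (Fin n → ZMod 2)),
      IsCayley Y S ∧ TriInvariant Y ∧ Y.IsLocalSpectralExpander lam ∧
        S.card ≤ Fintype.card P := by
  classical
  refine ⟨cpx p A hinj h0 hK, Finset.univ.image p, ⟨fun x y => Iff.rfl, ?_⟩, ?_,
    ⟨⟨?_, ?_⟩, ?_⟩, ?_⟩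
  · rw [Finset.coe_image, Finset.coe_univ, Set.image_univ]
    exact hgen
  · rintro t ⟨x, s, s', hs, rfl⟩ v
    refine ⟨v + x, s, s', hs, ?_⟩
    rw [Finset.image_insert, Finset.image_insert, Finset.image_singleton, add_assoc, add_assoc]
  · have h1 : ∀ z : Fin n → ZMod 2, ∀ x, (cpx p A hinj h0 hK).graph.Reachable x (x + z) := by
      intro z
      have hz : z ∈ AddSubgroup.closure (Set.range p) := by
        rw [hgen]
        exact AddSubgroup.mem_top z
      induction hz using AddSubgroup.closure_induction with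
      | mem s hs =>
        intro x
        refine SimpleGraph.Adj.reachable ?_
        show x + (x + s) ∈ Finset.univ.image p
        rw [e1]
        obtain ⟨a, rfl⟩ := hs
        exact Finset.mem_image.mpr ⟨a, Finset.mem_univ _, rfl⟩
      | zero =>
        intro x
        rw [add_zero]
      | add a b _ _ ha hb =>
        intro x
        rw [← add_assoc]
        exact (ha x).trans (hb (x + a))
      | neg a _ ha =>
        intro x
        have h2 : -a = a := neg_eq_of_add_eq_zero_left (dbl a)
        rw [h2]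
        exact ha x
    have : Nonempty (Fin n → ZMod 2) := ⟨0⟩
    refine SimpleGraph.Connected.mk fun x y => ?_
    have h2 := h1 (x + y) x
    rwa [e1] at h2
  · intro u
    have hbij : Function.Bijective (fun a : P =>
        (⟨u + p a, by
          show u + (u + p a) ∈ Finset.univ.image p
          rw [e1]
          exact Finset.mem_image.mpr ⟨a, Finset.mem_univ _, rfl⟩⟩ :
          {v : Fin n → ZMod 2 // (cpx p A hinj h0 hK).graph.Adj u v})) := by
      constructor
      · intro a b hab
        exact hinj (add_left_cancel (Subtype.ext_iff.mp hab))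
      · rintro ⟨v, hv⟩
        obtain ⟨a, -, ha⟩ := Finset.mem_image.mp (show u + v ∈ Finset.univ.image p from hv)
        refine ⟨a, Subtype.ext ?_⟩
        show u + p a = v
        rw [ha, e1]
    refine lamLe_iso A _ (Equiv.ofBijective _ hbij) ?_ hA
    intro a b
    exact link_iff p A hinj h0 hK _ u a b _ _
  · rintro u ⟨v, hv⟩
    obtain ⟨a, -, ha⟩ := Finset.mem_image.mp (show u + v ∈ Finset.univ.image p from hv)
    have hv2 : v = u + p a := by rw [ha, e1]
    subst hv2
    obtain ⟨b, hb⟩ := hN a
    have hw : (cpx p A hinj h0 hK).graph.Adj u (u + p b) := by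
      show u + (u + p b) ∈ Finset.univ.image p
      rw [e1]
      exact Finset.mem_image.mpr ⟨b, Finset.mem_univ _, rfl⟩
    exact ⟨⟨u + p b, hw⟩, (link_iff p A hinj h0 hK _ u a b _ _).2 hb⟩
  · exact Finset.card_image_le.trans (by rw [Finset.card_univ])

end Complex

theorem code_to_complex' (k : Type) [Field k] [Fintype k] [CharP k 2] (hQ : 4 ≤ Fintype.card k)
    {X : Type} [Fintype X] [Nonempty X] (L G : Submodule k (X → k))
    (hLG : ∀ f ∈ L, ∀ g ∈ L, f * g ∈ G)
    (hsep : ∀ x y : X, x ≠ y → ∃ g ∈ G, g x = 0 ∧ g y ≠ 0) (lam : ℝ)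
    (hz : ∀ g ∈ G, g ≠ 0 → (Nat.card {x : X // g x = 0} : ℝ) ≤ lam * Fintype.card X) :
    ∃ (n : ℕ) (Y : Complex2 (Fin n → ZMod 2)) (S : Finset (Fin n → ZMod 2)),
      IsCayley Y S ∧ TriInvariant Y ∧
      Y.IsLocalSpectralExpander (max lam (1 / ((Fintype.card k : ℝ) - 2))) ∧
      S.card ≤ Fintype.card k ^ (Module.finrank k G + 1) ∧ 2 ^ Module.finrank k L ≤ n := by
  classical
  have hfV : Finite (Module.Dual k (Aff G)) := Module.finite_of_finite k
  let _ : Fintype (Module.Dual k (Aff G)) := Fintype.ofFinite _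
  let _ : Fintype (Module.Dual k G) := Fintype.ofFinite _
  have h2V : ∀ v : Module.Dual k (Aff G), 2 • v = 0 := by
    intro v
    rw [two_nsmul, ← two_smul k v, CharTwo.two_eq_zero, zero_smul]
  let _ : Module (ZMod 2) (Module.Dual k (Aff G)) := AddCommGroup.zmodModule h2V
  have : Module.Finite (ZMod 2) (Module.Dual k (Aff G)) := Module.Finite.of_finite
  let e := (Module.finBasis (ZMod 2) (Module.Dual k (Aff G))).equivFun
  let n := Module.finrank (ZMod 2) (Module.Dual k (Aff G))
  let p : Kn k × Module.Dual k G → (Fin n → ZMod 2) := fun a => e (a.1.1 • vv G a.2)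
  have hone : ∀ (a : k) (M : Module.Dual k G), (a • vv G M) ⟨_, one_mem G⟩ = a := by
    intro a M
    simp [vv_apply]
  have hinj : Function.Injective p := by
    rintro ⟨a, M⟩ ⟨a', M'⟩ h
    have h1 : a.1 • vv G M = a'.1 • vv G M' := e.injective h
    have h2 : a.1 = a'.1 := by
      rw [← hone a.1 M, h1, hone]
    have h3 : M = M' := by
      refine LinearMap.ext fun g => ?_
      have h4 := LinearMap.congr_fun h1 ⟨_, coord_mem G g⟩
      simp only [LinearMap.smul_apply, vv_apply, smul_eq_mul, h2] at h4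
      exact mul_left_cancel₀ a'.2 h4
    rw [h3, Subtype.ext h2]
  have h0 : ∀ a, p a ≠ 0 := by
    intro a h
    have h1 : a.1.1 • vv G a.2 = 0 := by
      have := (LinearEquiv.map_eq_zero_iff e).mp h
      exact this
    have h2 := hone a.1.1 a.2
    rw [h1] at h2
    exact a.1.2 h2.symm
  have hK : ∀ a a', (AA G).Adj a a' → ∃ a'', p a + p a' = p a'' ∧ (AA G).Adj a a'' := by
    rintro ⟨α, M⟩ ⟨α', M'⟩ ⟨h1, x, t, h2⟩
    simp only at h1 h2
    have hM' : M' = M + t • ev G x := by rw [← h2]; abel
    have hne : α.1 + α'.1 ≠ 0 := by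
      intro h
      have h3 : α.1 = α'.1 := by
        have := CharTwo.add_eq_zero.mp h
        exact this
      exact h1 (Subtype.ext h3)
    refine ⟨(⟨α.1 + α'.1, hne⟩, M + (α'.1 * t / (α.1 + α'.1)) • ev G x), ?_, ?_⟩
    · show e (α.1 • vv G M) + e (α'.1 • vv G M') = e ((α.1 + α'.1) • vv G _)
      rw [← map_add]
      congr 1
      rw [hM', vv_line, vv_line, smul_add, smul_add, smul_smul, smul_smul,
        mul_div_cancel₀ _ hne, add_smul, add_assoc]
    · refine ⟨?_, x, α'.1 * t / (α.1 + α'.1), by simp only [add_sub_cancel_left]⟩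
      intro h
      have h3 : α.1 = α.1 + α'.1 := congrArg Subtype.val h
      exact α'.2 (left_eq_add.mp h3)
  have hgen : AddSubgroup.closure (Set.range p) = ⊤ := by
    have h1 : Set.range p = (e.toAddEquiv.toAddMonoidHom) ''
        (Set.range fun a : Kn k × Module.Dual k G => a.1.1 • vv G a.2) := by
      rw [← Set.range_comp]
      rfl
    rw [h1, ← AddMonoidHom.map_closure, closure_vv]
    exact AddSubgroup.map_top_of_surjective _ e.surjective
  have hcK : Fintype.card (Kn k) = Fintype.card k - 1 := card_Kn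
  have hlam : LamLe (AA G) (max lam (1 / ((Fintype.card k : ℝ) - 2))) := by
    refine lamLe_prod (AA G) (BB G) ?_ (by omega) ?_ ?_ _ ?_ ?_
    · intro a a'
      rw [mem_BB]
      rfl
    · exact ⟨0, Finset.mem_insert_self _ _⟩
    · intro δ hδ
      rw [mem_BB] at hδ ⊢
      obtain ⟨x, t, rfl⟩ := hδ
      exact ⟨x, -t, (neg_smul_ev G _ _).symm⟩
    · refine le_trans (le_of_eq ?_) (le_max_right _ _)
      rw [hcK, Nat.cast_sub (by omega)]
      push_cast
      congr 1
      ring
    · intro ψ hψ
      exact char_bound G hQ hsep lam hz ψ hψ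
  have hN : ∀ a, ∃ b, (AA G).Adj a b := by
    rintro ⟨α, M⟩
    have h1 : 2 ≤ Fintype.card (Kn k) := by omega
    obtain ⟨β, hβ⟩ := Fintype.exists_ne_of_one_lt_card (by omega) α
    obtain ⟨x⟩ := ‹Nonempty X›
    exact ⟨(β, M), hβ.symm, x, 0, by simp⟩
  obtain ⟨Y, S, h1, hti, h2, h3⟩ := exists_complex' p (AA G) hinj h0 hK hgen _ hlam hN
  have hcW : Fintype.card (Module.Dual k G) = Fintype.card k ^ Module.finrank k G := by
    rw [Module.card_eq_pow_finrank (K := k), Subspace.dual_finrank_eq]
  refine ⟨n, Y, S, h1, hti, h2, h3.trans ?_, ?_⟩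
  · rw [Fintype.card_prod, hcK, hcW, pow_succ, mul_comm]
    exact Nat.mul_le_mul_left _ (Nat.sub_le _ _)
  · refine (dim_le G L hLG).trans ?_
    have h4 : Fintype.card (Module.Dual k (Aff G)) =
        Fintype.card k ^ Module.finrank k (Module.Dual k (Aff G)) :=
      Module.card_eq_pow_finrank (K := k)
    have h5 : Fintype.card (Module.Dual k (Aff G)) = 2 ^ n := by
      have h6 := Module.card_eq_pow_finrank (K := ZMod 2) (V := Module.Dual k (Aff G))
      rwa [ZMod.card] at h6
    rw [h5] at h4
    have h6 : 2 ^ Module.finrank k (Module.Dual k (Aff G)) ≤ 2 ^ n := by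
      rw [h4]
      exact Nat.pow_le_pow_left (by omega) _
    exact (Nat.pow_le_pow_iff_right (by norm_num)).mp h6

end Pool.Agent.W132.Cay
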