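import Mathlib

/-!
# Cayley complexes over `F_2^n`: definitions

Two-dimensional simplicial complexes, links, the second eigenvalue of the random walk on a finite
graph, local spectral expanders, Cayley complexes over `F_2^n`.
-/

set_option autoImplicit false

namespace Pool.Agent.W132.Cay

/-- A 2-dimensional simplicial complex with vertex set `V`: a set of edges (a simple graph) and a
set of triangles (3-element sets of vertices), such that all edges of a triangle are edges. -/
structure Complex2 (V : Type) where
  /-- the graph `(V, E)` -/
  graph : SimpleGraph V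
  /-- the set `T` of triangles -/
  tri : Set (Finset V)
  card_tri : ∀ t ∈ tri, t.card = 3
  edge_tri : ∀ t ∈ tri, ∀ x ∈ t, ∀ y ∈ t, x ≠ y → graph.Adj x y

/-- The link of the vertex `u`: the graph on the neighbours of `u`, in which `v` and `w` are
adjacent when `{u, v, w}` is a triangle. -/
def Complex2.link {V : Type} [DecidableEq V] (X : Complex2 V) (u : V) :
    SimpleGraph {v : V // X.graph.Adj u v} where
  Adj v w := v ≠ w ∧ ({u, v.1, w.1} : Finset V) ∈ X.tri
  symm := ⟨fun v w h => ⟨h.1.symm, by
    have h2 : ({u, w.1, v.1} : Finset V) = {u, v.1, w.1} := by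
      ext z; simp only [Finset.mem_insert, Finset.mem_singleton]; tauto
    rw [h2]; exact h.2⟩⟩
  loopless := ⟨fun v h => h.1 rfl⟩

open Classical in
/-- The random walk matrix of a finite graph, as an operator:
`(walk G f) v` is the average of `f` over the neighbours of `v`. -/
noncomputable def walk {W : Type} [Fintype W] (G : SimpleGraph W) (f : W → ℝ) (v : W) : ℝ :=
  (∑ w, if G.Adj v w then f w else 0) / (∑ w, if G.Adj v w then 1 else 0)

/-- `lambda(G) ≤ lam`: the second largest eigenvalue, in absolute value, of the random walk matrix
of `G` is at most `lam`. The constant functions are eigenfunctions with eigenvalue `1`, and the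
random walk matrix is diagonalisable, so this says that every eigenvalue with an eigenfunction
which is not constant has absolute value at most `lam`. -/
def LamLe {W : Type} [Fintype W] (G : SimpleGraph W) (lam : ℝ) : Prop :=
  ∀ (μ : ℝ) (f : W → ℝ), (¬ ∃ c : ℝ, ∀ v, f v = c) → (∀ v, walk G f v = μ * f v) → |μ| ≤ lam

open Classical in
/-- A `lam`-local spectral expander. -/
def Complex2.IsLocalExpander {V : Type} [Fintype V] (X : Complex2 V) (lam : ℝ) : Prop :=
  X.graph.Connected ∧ ∀ u : V, LamLe (X.link u) lam

/-- A Cayley complex over `F_2^n`: its graph is the Cayley graph of `F_2^n` with respect to the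
generating set `S`. Its degree is `S.card`. -/
def IsCayley {n : ℕ} (X : Complex2 (Fin n → ZMod 2)) (S : Finset (Fin n → ZMod 2)) : Prop :=
  (∀ x y, X.graph.Adj x y ↔ x + y ∈ S) ∧
    AddSubgroup.closure (S : Set (Fin n → ZMod 2)) = ⊤

end Pool.Agent.W132.Cay
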